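import Pool.Agent.W211.AF.Stm

/-!
# S_COVS: number of wildcards and tails in the cover
-/

set_option autoImplicit false

namespace Pool.Agent.W177.AF

open Pool.Agent.W211.AF

theorem count_map (L : List Lt) : (L.map (some : Lt → Option Lt)).count none = 0 := by
  rw [List.count_eq_zero]
  intro h
  obtain ⟨a, _, ha⟩ := List.mem_map.1 h
  exact absurd ha (by simp)

theorem tl_le (π : Pat) : tl π ≤ π.length := by
  induction π with
  | nil => simp [tl]
  | cons x π ih =>
    rw [tl, List.length_cons]
    split_ifs <;> omega

theorem tl_tail (x : Option Lt) (π : Pat) : tl π ≤ tl (x :: π) := by
  rw [tl]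
  have := tl_le π
  split_ifs <;> omega

theorem tl_append_none (L : List Lt) (π : Pat) :
    tl (L.map some ++ none :: π) = tl (none :: π) := by
  induction L with
  | nil => rfl
  | cons a L ih =>
    rw [List.map_cons, List.cons_append, tl, if_pos (by simp), ih]

theorem tl_append_le (L : List Lt) (π : Pat) : tl (L.map some ++ π) ≤ tl π + L.length := by
  induction L with
  | nil => simp
  | cons a L ih =>
    rw [List.map_cons, List.cons_append, tl, List.length_cons]
    split_ifs with h1 h2
    · omega
    · exact absurd h2 (by simp)
    · have h3 : none ∉ π := fun h => h1 (List.mem_append_right _ h)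
      have h4 : tl π = π.length := by
        clear ih h1
        induction π with
        | nil => rfl
        | cons x π ih =>
          have h5 : none ∉ π := fun h => h3 (List.mem_cons_of_mem _ h)
          have h6 : x ≠ none := fun h => h3 (by rw [h]; exact List.mem_cons_self)
          rw [tl, if_neg h5, if_neg h6, List.length_cons]
      rw [List.length_append, List.length_map]
      omega

theorem one_le_rho (w : ℕ) : (1 : ℝ) ≤ (3 / 2) ^ w := one_le_pow₀ (by norm_num)

theorem covA (σ : List Lt) : ∀ π : Pat,
    ((cov σ π).map (fun π' => ((3 : ℝ) / 2) ^ (π'.count none))).sum
      ≤ 3 * (3 / 2) ^ (π.count none) - 2 := by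
  induction σ with
  | nil =>
    intro π
    have h := one_le_rho (π.count none)
    simp only [cov, List.map_cons, List.map_nil, List.sum_cons, List.sum_nil]
    linarith
  | cons x σ ih =>
    intro π
    match π with
    | [] =>
      simp only [cov, List.map_nil, List.sum_nil, List.count_nil, pow_zero]
      norm_num
    | none :: π =>
      have h := one_le_rho (π.count none)
      have hih := ih π
      have e1 : ((x :: σ).reverse.map some ++ none :: π).count none = π.count none + 1 := by
        rw [List.count_append, count_map, List.count_cons_self, zero_add]
      have e2 : (none :: π).count none = π.count none + 1 := List.count_cons_self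
      rw [cov, List.map_cons, List.sum_cons, e1, e2, pow_succ]
      by_cases hx : x.2 = false
      · rw [if_pos hx]
        linarith
      · rw [if_neg hx, List.map_nil, List.sum_nil]
        linarith
    | some y :: π =>
      have h := one_le_rho (π.count none)
      have hih := ih π
      have e2 : (some y :: π).count none = π.count none := by
        rw [List.count_cons_of_ne (by simp)]
      rw [cov, e2]
      by_cases hy : y = (x.1, !x.2)
      · rw [if_pos hy]
        exact hih
      · rw [if_neg hy, List.map_cons, List.sum_cons, List.map_nil, List.sum_nil,
          List.count_append, count_map, e2, zero_add]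
        linarith

theorem covB (σ : List Lt) : ∀ π : Pat, ∀ π' ∈ cov σ π, tl π' ≤ tl π + σ.length := by
  induction σ with
  | nil =>
    intro π π' h
    simp only [cov, List.mem_singleton] at h
    rw [h]
    simp
  | cons x σ ih =>
    intro π π' h
    match π, h with
    | [], h => simp [cov] at h
    | none :: π, h =>
      rw [cov, List.mem_cons] at h
      rcases h with h | h
      · rw [h, tl_append_none]
        omega
      · by_cases hx : x.2 = false
        · rw [if_pos hx] at h
          have h1 := ih π π' h
          have h2 := tl_tail none π
          rw [List.length_cons]
          omega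
        · rw [if_neg hx] at h
          simp at h
    | some y :: π, h =>
      rw [cov] at h
      by_cases hy : y = (x.1, !x.2)
      · rw [if_pos hy] at h
        have h1 := ih π π' h
        have h2 := tl_tail (some y) π
        rw [List.length_cons]
        omega
      · rw [if_neg hy, List.mem_singleton] at h
        rw [h]
        have h1 := tl_append_le (x :: σ).reverse (some y :: π)
        rw [List.length_reverse] at h1
        exact h1

theorem main : Pool.Agent.W211.AF.S_COVS := by
  intro σ π
  refine ⟨covA σ π, covB σ π, ?_, count_map σ⟩
  have h := tl_le (σ.map some)
  rwa [List.length_map] at h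

end Pool.Agent.W177.AF
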